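import Mathlib

set_option autoImplicit false


namespace Pool.Agent.Results.MP_176125_gt.Lindelof.Simons

open Set

variable {X : Type*}

/-- supremum of a real function -/
noncomputable def S (f : X → ℝ) : ℝ := ⨆ x, f x

lemma le_S {f : X → ℝ} {C : ℝ} (h : ∀ x, f x ≤ C) (x : X) : f x ≤ S f :=
  le_ciSup (f := f) ⟨C, by rintro _ ⟨y, rfl⟩; exact h y⟩ x

lemma S_le [Nonempty X] {f : X → ℝ} {C : ℝ} (h : ∀ x, f x ≤ C) : S f ≤ C := ciSup_le h

lemma bdd_hull {F : ℕ → X → ℝ} {M : ℝ} (hM : ∀ n x, |F n x| ≤ M) (s : Set ℕ)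
    {g : X → ℝ} (hg : g ∈ convexHull ℝ (F '' s)) (x : X) : |g x| ≤ M := by
  have hconv : Convex ℝ {g : X → ℝ | |g x| ≤ M} := by
    intro a ha b hb u v hu hv huv
    simp only [mem_ofPred_eq] at ha hb ⊢
    rw [abs_le] at ha hb ⊢
    have hv' : v = 1 - u := by linarith
    subst hv'
    simp only [Pi.add_apply, Pi.smul_apply, smul_eq_mul]
    constructor <;> nlinarith
  have hsub : F '' s ⊆ {g : X → ℝ | |g x| ≤ M} := by
    rintro _ ⟨n, _, rfl⟩; exact hM n x
  exact convexHull_min hsub hconv hg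

theorem simons [Nonempty X] (B : Set X) (F : ℕ → X → ℝ) (M c : ℝ)
    (hM : ∀ n x, |F n x| ≤ M)
    (hB : ∀ lam : ℝ, 0 < lam → lam < 1 → ∀ g : ℕ → X → ℝ,
      (∀ n, g n ∈ convexHull ℝ (range F)) →
        ∃ b ∈ B, ∀ x, ∑' n, lam ^ n * g n x ≤ ∑' n, lam ^ n * g n b)
    (hc : ∀ b ∈ B, ∃ N, ∀ n ≥ N, F n b ≤ c) (η : ℝ) (hη : 0 < η) :
    ∃ g ∈ convexHull ℝ (range F), ∀ x, g x ≤ c + η := by
  by_contra hcon
  push Not at hcon
  obtain ⟨x0⟩ := ‹Nonempty X›
  have hne : Nonempty X := ⟨x0⟩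
  have hM0 : 0 ≤ M := le_trans (abs_nonneg _) (hM 0 x0)
  set m : ℝ := c + η with hm
  set δ : ℝ := η / 4 with hδ
  have hδ0 : 0 < δ := by positivity
  -- choose lam
  obtain ⟨lam, hl0, hl1, hl2⟩ : ∃ lam : ℝ, 0 < lam ∧ lam ≤ 1 / 2 ∧
      m - δ ≤ (m - lam * M) / (1 - lam) := by
    have hpos : 0 < δ + |M - m| + 1 := by positivity
    refine ⟨min (1 / 2) (δ / (2 * (|M - m| + 1))), ?_, min_le_left _ _, ?_⟩
    · apply lt_min <;> positivity
    · set l := min (1 / 2) (δ / (2 * (|M - m| + 1))) with hl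
      have hl1 : l ≤ 1 / 2 := min_le_left _ _
      have hl2 : l ≤ δ / (2 * (|M - m| + 1)) := min_le_right _ _
      have hl0 : 0 < l := by rw [hl]; apply lt_min <;> positivity
      rw [le_div_iff₀ (by linarith)]
      have h1 : l * (2 * (|M - m| + 1)) ≤ δ := by
        rwa [le_div_iff₀ (by positivity)] at hl2
      have h2 : M - m ≤ |M - m| := le_abs_self _
      have h3 : l * (M - m) ≤ l * |M - m| := mul_le_mul_of_nonneg_left h2 hl0.le
      have h4 : 0 ≤ |M - m| := abs_nonneg _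
      nlinarith
  have h1l : 0 < 1 - lam := by linarith
  set θ : ℝ := lam / 2 with hθ
  have hθ0 : 0 < θ := by positivity
  set ε : ℝ := lam * δ / 8 with hε
  have hε0 : 0 < ε := by positivity
  -- hulls
  set C : ℕ → Set (X → ℝ) := fun p => convexHull ℝ (F '' Ici p) with hC
  have hCsub : ∀ p, C p ⊆ convexHull ℝ (range F) := fun p =>
    convexHull_mono (image_subset_range _ _)
  have hCne : ∀ p, (C p).Nonempty := fun p =>
    ⟨F p, subset_convexHull ℝ _ ⟨p, mem_Ici.2 le_rfl, rfl⟩⟩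
  have hCb : ∀ p, ∀ g ∈ C p, ∀ x, |g x| ≤ M := fun p g hg x => bdd_hull hM _ hg x
  have hCmono : ∀ p, C (p + 1) ⊆ C p := fun p =>
    convexHull_mono (image_mono (Ici_subset_Ici.2 (Nat.le_succ p)))
  have hSm : ∀ p, ∀ g ∈ C p, m ≤ S g := by
    intro p g hg
    obtain ⟨x, hx⟩ := hcon g (hCsub p hg)
    exact le_trans hx.le (le_S (fun y => (abs_le.1 (hCb p g hg y)).2) x)
  -- the step
  have hstep : ∀ (p : ℕ) (G : X → ℝ) (A : ℝ), (∀ x, |G x| ≤ A) → ∃ g ∈ C p, ∀ g' ∈ C p,
      S (fun x => G x + lam ^ p / (1 - lam) * g x) ≤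
        S (fun x => G x + lam ^ p / (1 - lam) * g' x) + ε * θ ^ p := by
    intro p G A hA
    set T : (X → ℝ) → ℝ := fun g => S (fun x => G x + lam ^ p / (1 - lam) * g x) with hT
    have hcoef : 0 ≤ lam ^ p / (1 - lam) := by positivity
    have hbelow : BddBelow (T '' C p) := by
      refine ⟨-A - lam ^ p / (1 - lam) * M, ?_⟩
      rintro _ ⟨g, hg, rfl⟩
      have hb : ∀ x, G x + lam ^ p / (1 - lam) * g x ≤ A + lam ^ p / (1 - lam) * M := by
        intro x
        have h1 := (abs_le.1 (hA x)).2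
        have h2 := mul_le_mul_of_nonneg_left (abs_le.1 (hCb p g hg x)).2 hcoef
        linarith
      have h1 := (abs_le.1 (hA x0)).1
      have h2 := mul_le_mul_of_nonneg_left (abs_le.1 (hCb p g hg x0)).1 hcoef
      refine le_trans ?_ (le_S hb x0)
      linarith
    have hne' : (T '' C p).Nonempty := (hCne p).image _
    obtain ⟨_, ⟨g, hg, rfl⟩, hlt⟩ := Real.lt_sInf_add_pos hne' (ε := ε * θ ^ p) (by positivity)
    refine ⟨g, hg, fun g' hg' => ?_⟩
    have := csInf_le hbelow (mem_image_of_mem T hg')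
    exact le_trans hlt.le (by linarith)
  -- define the sequence
  choose! st hst1 hst2 using hstep
  -- st : ℕ → (X → ℝ) → ℝ → (X → ℝ)
  let Gs : ℕ → (X → ℝ) := fun p => Nat.rec (fun _ => 0)
    (fun p G => fun x => G x + lam ^ p * st p G (M / (1 - lam)) x) p
  have hG0 : Gs 0 = fun _ => 0 := rfl
  set g : ℕ → X → ℝ := fun p => st p (Gs p) (M / (1 - lam)) with hg
  have hGs : ∀ p, Gs (p + 1) = fun x => Gs p x + lam ^ p * g p x := fun p => rfl
  have hGsum : ∀ p x, (∀ q < p, g q ∈ C q) → Gs p x = ∑ n ∈ Finset.range p, lam ^ n * g n x := by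
    intro p x
    induction p with
    | zero => intro _; simp [hG0]
    | succ p ih =>
      intro h
      rw [hGs, Finset.sum_range_succ, ← ih (fun q hq => h q (by omega))]
  have hgeom : ∀ p, ∑ n ∈ Finset.range p, lam ^ n ≤ 1 / (1 - lam) := by
    intro p
    have := Summable.sum_le_tsum (Finset.range p) (fun n _ => by positivity)
      (summable_geometric_of_lt_one hl0.le (by linarith : lam < 1))
    rwa [tsum_geometric_of_lt_one hl0.le (by linarith : lam < 1), ← one_div] at this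
  have hgC : ∀ p, g p ∈ C p ∧ ∀ x, |Gs p x| ≤ M / (1 - lam) := by
    intro p
    induction p using Nat.strong_induction_on with
    | _ p ih =>
      have hb : ∀ x, |Gs p x| ≤ M / (1 - lam) := by
        intro x
        rw [hGsum p x (fun q hq => (ih q hq).1)]
        calc |∑ n ∈ Finset.range p, lam ^ n * g n x|
            ≤ ∑ n ∈ Finset.range p, |lam ^ n * g n x| := Finset.abs_sum_le_sum_abs _ _
          _ ≤ ∑ n ∈ Finset.range p, lam ^ n * M := by
              apply Finset.sum_le_sum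
              intro n hn
              rw [abs_mul, abs_of_nonneg (by positivity : (0:ℝ) ≤ lam ^ n)]
              exact mul_le_mul_of_nonneg_left
                (hCb n _ (ih n (Finset.mem_range.1 hn)).1 x) (by positivity)
          _ = (∑ n ∈ Finset.range p, lam ^ n) * M := by rw [Finset.sum_mul]
          _ ≤ 1 / (1 - lam) * M := mul_le_mul_of_nonneg_right (hgeom p) hM0
          _ = M / (1 - lam) := by ring
      exact ⟨hst1 p (Gs p) _ hb, hb⟩
  have hgb : ∀ p x, |g p x| ≤ M := fun p x => hCb p _ (hgC p).1 x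
  have hGb : ∀ p x, |Gs p x| ≤ M / (1 - lam) := fun p x => (hgC p).2 x
  have hGsum' : ∀ p x, Gs p x = ∑ n ∈ Finset.range p, lam ^ n * g n x :=
    fun p x => hGsum p x (fun q _ => (hgC q).1)
  have hopt : ∀ p, ∀ g' ∈ C p, S (fun x => Gs p x + lam ^ p / (1 - lam) * g p x) ≤
      S (fun x => Gs p x + lam ^ p / (1 - lam) * g' x) + ε * θ ^ p := fun p g' hg' =>
    hst2 p (Gs p) _ (hGb p) g' hg'
  set t : ℕ → ℝ := fun p => S (fun x => Gs p x + lam ^ p / (1 - lam) * g p x) with ht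
  set s : ℕ → ℝ := fun p => S (Gs p) with hs
  -- the limit function
  have hsummable : ∀ x, Summable (fun n => lam ^ n * g n x) := by
    intro x
    apply Summable.of_norm_bounded (g := fun n => lam ^ n * M)
      ((summable_geometric_of_lt_one hl0.le (by linarith : lam < 1)).mul_right M)
    intro n
    rw [Real.norm_eq_abs, abs_mul, abs_of_nonneg (by positivity : (0:ℝ) ≤ lam ^ n)]
    exact mul_le_mul_of_nonneg_left (hgb n x) (by positivity)
  set G : X → ℝ := fun x => ∑' n, lam ^ n * g n x with hGdef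
  obtain ⟨b, hbB, hbmax⟩ := hB lam hl0 (by linarith) g (fun n => hCsub n (hgC n).1)
  have htail : ∀ p x, |G x - Gs p x| ≤ lam ^ p * M / (1 - lam) := by
    intro p x
    have h1 : G x - Gs p x = ∑' n, lam ^ (n + p) * g (n + p) x := by
      have := (hsummable x).sum_add_tsum_nat_add p
      rw [hGdef, hGsum' p x]
      simp only
      linarith
    rw [h1]
    have h2 : ∀ n, ‖lam ^ (n + p) * g (n + p) x‖ ≤ lam ^ n * (lam ^ p * M) := by
      intro n
      rw [Real.norm_eq_abs, abs_mul, abs_of_nonneg (by positivity : (0:ℝ) ≤ lam ^ (n + p)), pow_add,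
        mul_assoc]
      exact mul_le_mul_of_nonneg_left
        (mul_le_mul_of_nonneg_left (hgb _ x) (by positivity)) (by positivity)
    have h3 : HasSum (fun n => lam ^ n * (lam ^ p * M)) ((1 - lam)⁻¹ * (lam ^ p * M)) :=
      (hasSum_geometric_of_lt_one hl0.le (by linarith : lam < 1)).mul_right _
    have h4 := tsum_of_norm_bounded h3 h2
    rw [Real.norm_eq_abs] at h4
    calc |∑' n, lam ^ (n + p) * g (n + p) x| ≤ (1 - lam)⁻¹ * (lam ^ p * M) := h4
      _ = lam ^ p * M / (1 - lam) := by rw [div_eq_mul_inv]; ring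
  have hGbd : ∀ x, G x ≤ M / (1 - lam) := by
    intro x
    have h := htail 0 x
    rw [hG0] at h
    simp only [sub_zero, pow_zero, one_mul] at h
    exact (abs_le.1 h).2
  have hSG : S G = G b := le_antisymm (S_le hbmax) (le_S hGbd b)
  -- t recursion
  have hcoef : ∀ p, 0 ≤ lam ^ p / (1 - lam) := fun p => by positivity
  have htbd : ∀ p x, Gs p x + lam ^ p / (1 - lam) * g p x ≤
      M / (1 - lam) + lam ^ p / (1 - lam) * M := by
    intro p x
    have h1 := (abs_le.1 (hGb p x)).2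
    have h2 := mul_le_mul_of_nonneg_left (abs_le.1 (hgb p x)).2 (hcoef p)
    linarith
  have htstep : ∀ p, t p ≤ t (p + 1) + ε * θ ^ p := by
    intro p
    have hmem : (fun x => (1 - lam) * g p x + lam * g (p + 1) x) ∈ C p := by
      have := (convex_convexHull ℝ (F '' Ici p)) (hgC p).1 (hCmono p (hgC (p + 1)).1)
        h1l.le hl0.le (by ring)
      exact this
    have h := hopt p _ hmem
    refine le_trans h ?_
    have : (fun x => Gs p x + lam ^ p / (1 - lam) * ((1 - lam) * g p x + lam * g (p + 1) x)) =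
        (fun x => Gs (p + 1) x + lam ^ (p + 1) / (1 - lam) * g (p + 1) x) := by
      funext x
      rw [hGs]
      simp only
      have : (1 - lam) ≠ 0 := h1l.ne'
      field_simp
      ring
    rw [this]
  have htle : ∀ p k, t p ≤ t (p + k) + 2 * ε * (θ ^ p - θ ^ (p + k)) := by
    intro p k
    induction k with
    | zero => simp
    | succ k ih =>
      have h := htstep (p + k)
      have h5 : θ ^ (p + (k + 1)) ≤ θ ^ (p + k) / 2 := by
        rw [← add_assoc, pow_succ]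
        have : θ ≤ 1 / 2 := by rw [hθ]; linarith
        have h6 : 0 < θ ^ (p + k) := by positivity
        nlinarith
      have : t (p + k + 1) = t (p + (k + 1)) := by rw [add_assoc]
      rw [this] at h
      nlinarith
  have htG : ∀ q, t q ≤ S G + 2 * (lam ^ q * M / (1 - lam)) := by
    intro q
    apply S_le
    intro x
    have h1 := (abs_le.1 (htail q x)).1
    have h2 := mul_le_mul_of_nonneg_left (abs_le.1 (hgb q x)).2 (hcoef q)
    have h3 : G x ≤ S G := le_S hGbd x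
    have h4 : lam ^ q / (1 - lam) * M = lam ^ q * M / (1 - lam) := by ring
    linarith
  have htfin : ∀ p, t p ≤ S G + 2 * ε * θ ^ p := by
    intro p
    have hlim : Filter.Tendsto (fun k : ℕ => S G + 2 * (lam ^ (p + k) * M / (1 - lam)) +
        2 * ε * θ ^ p) Filter.atTop (nhds (S G + 2 * (0 * M / (1 - lam)) + 2 * ε * θ ^ p)) := by
      have h0 : Filter.Tendsto (fun k : ℕ => lam ^ (p + k)) Filter.atTop (nhds 0) := by
        have := tendsto_pow_atTop_nhds_zero_of_lt_one hl0.le (by linarith : lam < 1)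
        exact (this.comp (Filter.tendsto_add_atTop_nat p)).congr (fun k => by
          simp [add_comm])
      exact ((((h0.mul_const M).div_const (1 - lam)).const_mul 2).const_add (S G)).add_const _
    have hle : ∀ k, t p ≤ S G + 2 * (lam ^ (p + k) * M / (1 - lam)) + 2 * ε * θ ^ p := by
      intro k
      have h1 := htle p k
      have h2 := htG (p + k)
      have h3 : 0 ≤ 2 * ε * θ ^ (p + k) := by positivity
      nlinarith
    have := ge_of_tendsto' hlim hle
    simpa using this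
  -- s recursion
  have hsstep : ∀ p, s (p + 1) ≤ lam * s p + (1 - lam) * t p := by
    intro p
    apply S_le
    intro x
    have h1 : Gs p x ≤ s p := le_S (fun y => (abs_le.1 (hGb p y)).2) x
    have h2 : Gs p x + lam ^ p / (1 - lam) * g p x ≤ t p := le_S (htbd p) x
    have h3 : Gs (p + 1) x = lam * Gs p x + (1 - lam) * (Gs p x + lam ^ p / (1 - lam) * g p x) := by
      rw [hGs]
      simp only
      have : (1 - lam) ≠ 0 := h1l.ne'
      field_simp
      ring
    rw [h3]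
    have h4 := mul_le_mul_of_nonneg_left h1 hl0.le
    have h5 := mul_le_mul_of_nonneg_left h2 h1l.le
    linarith
  have hs0 : s 0 = 0 := by
    rw [hs]; simp only [hG0, S]; exact ciSup_const
  have ht0 : m / (1 - lam) ≤ t 0 := by
    rw [div_le_iff₀ h1l]
    have h1 := hSm 0 _ (hgC 0).1
    refine le_trans h1 ?_
    apply S_le
    intro x
    have h2 : Gs 0 x + lam ^ 0 / (1 - lam) * g 0 x ≤ t 0 := le_S (htbd 0) x
    rw [hG0] at h2
    simp only [pow_zero, zero_add] at h2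
    have h3 := mul_le_mul_of_nonneg_right h2 h1l.le
    have h4 : 1 / (1 - lam) * g 0 x * (1 - lam) = g 0 x := by
      have : (1 - lam) ≠ 0 := h1l.ne'
      field_simp
    linarith
  have hd : ∀ p, lam ^ p * (m / (1 - lam) - 2 * ε - 4 * ε / lam * (1 - (1 / 2) ^ p)) ≤
      S G - s p := by
    intro p
    induction p with
    | zero =>
      have := htfin 0
      simp only [pow_zero, one_mul, sub_self, mul_zero, sub_zero, hs0]
      simp only [pow_zero, mul_one] at this
      linarith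
    | succ p ih =>
      have h1 := hsstep p
      have h2 := mul_le_mul_of_nonneg_left (htfin p) h1l.le
      have h3 := mul_le_mul_of_nonneg_left ih hl0.le
      have h4 : lam * (S G - s p) - (1 - lam) * (2 * ε * θ ^ p) ≤ S G - s (p + 1) := by
        nlinarith
      refine le_trans ?_ h4
      have h5 : (1 - lam) * (2 * ε * θ ^ p) ≤ 2 * ε * θ ^ p := by
        have : 0 ≤ 2 * ε * θ ^ p := by positivity
        nlinarith
      have h6 : 2 * ε * θ ^ p = lam ^ (p + 1) * (4 * ε / lam * ((1 / 2) ^ p - (1 / 2) ^ (p + 1))) := by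
        rw [hθ, div_pow, one_div_pow, one_div_pow]
        field_simp
        ring
      have h7 : lam ^ (p + 1) * (m / (1 - lam) - 2 * ε - 4 * ε / lam * (1 - (1 / 2) ^ (p + 1))) =
          lam * (lam ^ p * (m / (1 - lam) - 2 * ε - 4 * ε / lam * (1 - (1 / 2) ^ p))) -
          lam ^ (p + 1) * (4 * ε / lam * ((1 / 2) ^ p - (1 / 2) ^ (p + 1))) := by
        ring
      rw [h7]
      linarith
  -- conclusion
  have hkey : ∀ p, m - 2 * δ ≤ g p b := by
    intro p
    have h1 := (abs_le.1 (htail (p + 1) b)).2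
    rw [hGs] at h1
    simp only at h1
    have h2 : Gs p b ≤ s p := le_S (fun y => (abs_le.1 (hGb p y)).2) b
    have h3 := hd p
    have h4 : (4 * ε / lam) * (1 - (1 / 2) ^ p) ≤ δ / 2 := by
      have h41 : 4 * ε / lam = δ / 2 := by rw [hε]; field_simp; ring
      rw [h41]
      have : (0:ℝ) ≤ (1 / 2) ^ p := by positivity
      nlinarith
    have h5 : 2 * ε ≤ δ / 4 := by rw [hε]; nlinarith
    have h6 : lam ^ p * (m / (1 - lam) - δ) ≤ S G - s p := by
      refine le_trans ?_ h3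
      apply mul_le_mul_of_nonneg_left _ (by positivity)
      linarith
    have h7 : lam ^ p * (m / (1 - lam) - δ) ≤ lam ^ p * g p b + lam ^ (p + 1) * M / (1 - lam) := by
      rw [hSG] at h6
      linarith
    have h8 : lam ^ p * (m / (1 - lam) - δ - lam * M / (1 - lam)) ≤ lam ^ p * g p b := by
      have : lam ^ (p + 1) * M / (1 - lam) = lam ^ p * (lam * M / (1 - lam)) := by
        rw [pow_succ]; ring
      rw [this] at h7
      nlinarith
    have h9 : m / (1 - lam) - δ - lam * M / (1 - lam) ≤ g p b :=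
      le_of_mul_le_mul_left h8 (by positivity)
    have h10 : (m - lam * M) / (1 - lam) = m / (1 - lam) - lam * M / (1 - lam) := by
      rw [sub_div]
    linarith
  obtain ⟨N, hN⟩ := hc b hbB
  have hfin : g N b ≤ c := by
    have hconv : Convex ℝ {f : X → ℝ | f b ≤ c} := by
      intro a ha a' ha' u v hu hv huv
      simp only [mem_ofPred_eq, Pi.add_apply, Pi.smul_apply, smul_eq_mul] at ha ha' ⊢
      have hv' : v = 1 - u := by linarith
      subst hv'
      nlinarith
    have hsub : F '' Ici N ⊆ {f : X → ℝ | f b ≤ c} := by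
      rintro _ ⟨n, hn, rfl⟩; exact hN n hn
    exact convexHull_min hsub hconv (hgC N).1
  have := hkey N
  rw [hδ] at this
  linarith

end Pool.Agent.Results.MP_176125_gt.Lindelof.Simons

namespace Pool.Agent.Results.MP_176125_gt.Lindelof

open Set Cardinal Topology

section
universe u
variable {E : Type u} [AddCommGroup E] [Module ℝ E] [TopologicalSpace E]

/-- countable-type conditions given by rational bounds on functionals -/
def Cond {ι : Type*} (f : ι → E → ℝ) (s : List (ι × ℚ × ℚ)) : Set E :=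
  {x | ∀ d ∈ s, (d.2.1 : ℝ) < f d.1 x ∧ f d.1 x < (d.2.2 : ℝ)}

lemma isOpen_cond {ι : Type*} (f : ι → E → ℝ) (hf : ∀ i, Continuous (f i))
    (s : List (ι × ℚ × ℚ)) : IsOpen (Cond f s) := by
  induction s with
  | nil => simp [Cond]
  | cons d s ih =>
    have : Cond f (d :: s) = {x | (d.2.1 : ℝ) < f d.1 x ∧ f d.1 x < (d.2.2 : ℝ)} ∩ Cond f s := by
      ext x; simp [Cond]
    rw [this]
    apply IsOpen.inter _ ih
    exact (isOpen_lt continuous_const (hf _)).inter (isOpen_lt (hf _) continuous_const)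

lemma local_base {ι : Type*} {K : Set E} (hK : IsCompact K) (f : ι → E → ℝ)
    (hf : ∀ i, Continuous (f i)) (e : E)
    (hsep : ∀ x ∈ K, (∀ i, f i x = f i e) → x = e) (U : Set E) (hU : IsOpen U) (heU : e ∈ U) :
    ∃ s : List (ι × ℚ × ℚ), e ∈ Cond f s ∧ ∀ x ∈ K, x ∈ Cond f s → x ∈ U := by
  have hKU : IsCompact (K \ U) := hK.diff hU
  have hcov : ∀ x ∈ K \ U, ∃ s : List (ι × ℚ × ℚ), e ∈ Cond f s ∧
      ∃ V ∈ 𝓝[K \ U] x, ∀ y ∈ V, y ∉ Cond f s := by
    rintro x ⟨hxK, hxU⟩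
    have hne : ∃ i, f i x ≠ f i e := by
      by_contra h
      push Not at h
      exact hxU (hsep x hxK h ▸ heU)
    obtain ⟨i, hi⟩ := hne
    rcases lt_or_gt_of_ne hi with h | h
    · obtain ⟨p, hp1, hp2⟩ := exists_rat_btwn h
      obtain ⟨q, hq1⟩ := exists_rat_gt (f i e)
      refine ⟨[(i, p, q)], by simp [Cond, hp2, hq1], {y | f i y < p}, ?_, ?_⟩
      · exact mem_nhdsWithin_of_mem_nhds ((isOpen_lt (hf i) continuous_const).mem_nhds hp1)
      · intro y hy hy'
        have := hy' (i, p, q) (by simp)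
        exact absurd this.1 (not_lt.2 (le_of_lt hy))
    · obtain ⟨q, hq1, hq2⟩ := exists_rat_btwn h
      obtain ⟨p, hp1⟩ := exists_rat_lt (f i e)
      refine ⟨[(i, p, q)], by simp [Cond, hp1, hq1], {y | q < f i y}, ?_, ?_⟩
      · exact mem_nhdsWithin_of_mem_nhds ((isOpen_lt continuous_const (hf i)).mem_nhds hq2)
      · intro y hy hy'
        have := hy' (i, p, q) (by simp)
        exact absurd this.2 (not_lt.2 (le_of_lt hy))
  have key := hKU.induction_on (p := fun A => ∃ s : List (ι × ℚ × ℚ), e ∈ Cond f s ∧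
    ∀ y ∈ A, y ∉ Cond f s) ⟨[], by simp [Cond]⟩
    (fun A B hAB ⟨s, hs1, hs2⟩ => ⟨s, hs1, fun y hy => hs2 y (hAB hy)⟩)
    (fun A B ⟨s, hs1, hs2⟩ ⟨t, ht1, ht2⟩ => ⟨s ++ t, fun d hd => by
        rcases List.mem_append.1 hd with h | h
        · exact hs1 d h
        · exact ht1 d h, fun y hy hy' => by
        rcases hy with h | h
        · exact hs2 y h (fun d hd => hy' d (List.mem_append.2 (Or.inl hd)))
        · exact ht2 y h (fun d hd => hy' d (List.mem_append.2 (Or.inr hd)))⟩)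
    (fun x hx => by
      obtain ⟨s, hs, V, hV, hVs⟩ := hcov x hx
      exact ⟨V, hV, s, hs, hVs⟩)
  obtain ⟨s, hs1, hs2⟩ := key
  refine ⟨s, hs1, fun x hxK hxs => ?_⟩
  by_contra hxU
  exact hs2 x ⟨hxK, hxU⟩ hxs

end

section
universe u
variable {E : Type u} [AddCommGroup E] [Module ℝ E] [TopologicalSpace E]
  [IsTopologicalAddGroup E] [ContinuousSMul ℝ E] [LocallyConvexSpace ℝ E]

theorem exists_affine_small {K C : Set E} (hK : IsCompact K) (hKc : Convex ℝ K)
    (hC : IsCompact C) (hCc : Convex ℝ C) (hCK : C ⊆ K) [T2Space E] {e : E}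
    (he : e ∈ K.extremePoints ℝ) (heC : e ∉ C) {ε : ℝ} (hε : 0 < ε) :
    ∃ (l : StrongDual ℝ E) (c : ℝ), (∀ x ∈ K, 0 ≤ l x + c) ∧ (∀ x ∈ C, 1 ≤ l x + c) ∧
      l e + c < ε := by
  rcases C.eq_empty_or_nonempty with hCe | hCne
  · subst hCe
    exact ⟨0, 0, by simp, by simp, by simpa using hε⟩
  set Q : Set (E × ℝ) := convexJoin ℝ (C ×ˢ {(1 : ℝ)}) (K ×ˢ {(0 : ℝ)}) with hQ
  have hQconv : Convex ℝ Q :=
    (hCc.prod (convex_singleton _)).convexJoin (hKc.prod (convex_singleton _))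
  have hQimg : Q = (fun p : ℝ × (E × E) => ((1 - p.1) • p.2.1 + p.1 • p.2.2, (1 - p.1))) ''
      (Icc (0 : ℝ) 1 ×ˢ (C ×ˢ K)) := by
    ext ⟨z, r⟩
    simp only [hQ, mem_convexJoin, mem_prod, mem_singleton_iff, mem_image, Prod.exists,
      Prod.mk.injEq]
    constructor
    · rintro ⟨a, b, ⟨haC, rfl⟩, c, d, ⟨hcK, rfl⟩, hseg⟩
      rw [segment_eq_image] at hseg
      obtain ⟨θ, hθ, hz⟩ := hseg
      simp only [Prod.smul_mk, Prod.mk_add_mk, smul_eq_mul, mul_one, mul_zero, add_zero,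
        Prod.mk.injEq] at hz
      exact ⟨θ, a, c, ⟨hθ, haC, hcK⟩, hz.1, hz.2⟩
    · rintro ⟨θ, a, c, ⟨hθ, haC, hcK⟩, hz, hr⟩
      refine ⟨a, 1, ⟨haC, rfl⟩, c, 0, ⟨hcK, rfl⟩, ?_⟩
      rw [segment_eq_image]
      refine ⟨θ, hθ, ?_⟩
      simp only [Prod.smul_mk, Prod.mk_add_mk, smul_eq_mul, mul_one, mul_zero, add_zero,
        Prod.mk.injEq]
      exact ⟨hz, hr⟩
  have hQcomp : IsCompact Q := by
    rw [hQimg]
    apply (isCompact_Icc.prod (hC.prod hK)).image
    fun_prop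
  have hεh : 0 < ε / 2 := by positivity
  have hnot : (e, ε / 2) ∉ Q := by
    rw [hQimg]
    rintro ⟨⟨θ, a, c⟩, ⟨hθ, haC, hcK⟩, hz⟩
    simp only [Prod.mk.injEq] at hz
    simp only at hθ haC hcK
    obtain ⟨hz1, hz2⟩ := hz
    have hθ1 : θ < 1 := by linarith
    rcases hθ.1.eq_or_lt with h0 | h0
    · rw [← h0] at hz1
      simp only [sub_zero, one_smul, zero_smul, add_zero] at hz1
      exact heC (hz1 ▸ haC)
    · have hopen : e ∈ openSegment ℝ a c := by
        rw [openSegment_eq_image]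
        exact ⟨θ, ⟨h0, hθ1⟩, hz1⟩
      have := he.2 (hCK haC) hcK hopen
      exact heC (this ▸ haC)
  obtain ⟨Λ, u, hΛ1, hΛ2⟩ := geometric_hahn_banach_point_closed hQconv hQcomp.isClosed hnot
  set l0 : StrongDual ℝ E := Λ.comp (ContinuousLinearMap.inl ℝ E ℝ) with hl0
  set β : ℝ := Λ (0, 1) with hβ
  have hΛ : ∀ x t, Λ (x, t) = l0 x + t * β := by
    intro x t
    have : (x, t) = (x, (0:ℝ)) + t • ((0 : E), (1 : ℝ)) := by simp
    rw [this, map_add, map_smul]
    simp [hl0, hβ]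
  have hK0 : ∀ x ∈ K, (x, (0:ℝ)) ∈ Q := fun x hx =>
    subset_convexJoin_right (hCne.prod (singleton_nonempty _)) ⟨hx, rfl⟩
  have hC1 : ∀ x ∈ C, (x, (1:ℝ)) ∈ Q := fun x hx =>
    subset_convexJoin_left (((hCne.mono hCK)).prod (singleton_nonempty _)) ⟨hx, rfl⟩
  have he0 := lt_trans hΛ1 (hΛ2 _ (hK0 e he.1))
  rw [hΛ, hΛ] at he0
  have hβneg : β < 0 := by
    have : ε / 2 * β < 0 := by linarith
    by_contra h
    push Not at h
    nlinarith
  have hβ' : 0 < -β := by linarith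
  refine ⟨(-β)⁻¹ • l0, -((-β)⁻¹ * l0 e) + ε / 2, ?_, ?_, ?_⟩
  · intro x hx
    have h1 := lt_trans hΛ1 (hΛ2 _ (hK0 x hx))
    rw [hΛ, hΛ] at h1
    have h2 : (-β)⁻¹ * (l0 e + ε / 2 * β) < (-β)⁻¹ * (l0 x + 0 * β) :=
      mul_lt_mul_of_pos_left h1 (by positivity)
    have h3 : (-β)⁻¹ * (ε / 2 * β) = - (ε / 2) := by
      have : β ≠ 0 := hβneg.ne
      field_simp
    simp only [smul_apply, smul_eq_mul]
    rw [mul_add, h3] at h2
    simp only [zero_mul, add_zero] at h2
    linarith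
  · intro x hx
    have h1 := lt_trans hΛ1 (hΛ2 _ (hC1 x hx))
    rw [hΛ, hΛ] at h1
    have h2 : (-β)⁻¹ * (l0 e + ε / 2 * β) < (-β)⁻¹ * (l0 x + 1 * β) :=
      mul_lt_mul_of_pos_left h1 (by positivity)
    have h3 : (-β)⁻¹ * (ε / 2 * β) = - (ε / 2) := by
      have : β ≠ 0 := hβneg.ne
      field_simp
    have h4 : (-β)⁻¹ * (1 * β) = - 1 := by
      have : β ≠ 0 := hβneg.ne
      field_simp
    simp only [smul_apply, smul_eq_mul]
    rw [mul_add, mul_add, h3, h4] at h2
    linarith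
  · simp only [smul_apply, smul_eq_mul]
    linarith

theorem exists_affine_small' {K : Set E} (hK : IsCompact K) (hKc : Convex ℝ K) [T2Space E] {e : E}
    (he : e ∈ K.extremePoints ℝ) (f : StrongDual ℝ E) (q η : ℝ) (hq : |f e - q| < η)
    {ε : ℝ} (hε : 0 < ε) :
    ∃ (l : StrongDual ℝ E) (c : ℝ), (∀ x ∈ K, 0 ≤ l x + c) ∧
      (∀ x ∈ K, η ≤ |f x - q| → 1 ≤ l x + c) ∧ l e + c < ε := by
  have hcl1 : IsClosed {x : E | q + η ≤ f x} := isClosed_le continuous_const f.continuous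
  have hcl2 : IsClosed {x : E | f x ≤ q - η} := isClosed_le f.continuous continuous_const
  have hcv1 : Convex ℝ {x : E | q + η ≤ f x} := by
    intro x hx y hy a b ha hb hab
    simp only [mem_ofPred_eq, map_add, map_smul, smul_eq_mul] at hx hy ⊢
    have : b = 1 - a := by linarith
    subst this
    nlinarith
  have hcv2 : Convex ℝ {x : E | f x ≤ q - η} := by
    intro x hx y hy a b ha hb hab
    simp only [mem_ofPred_eq, map_add, map_smul, smul_eq_mul] at hx hy ⊢
    have : b = 1 - a := by linarith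
    subst this
    nlinarith
  rw [abs_lt] at hq
  obtain ⟨l1, c1, h11, h12, h13⟩ := exists_affine_small hK hKc (hK.inter_right hcl1)
    (hKc.inter hcv1) inter_subset_left he
    (by rintro ⟨_, h⟩; simp only [mem_ofPred_eq] at h; linarith) (half_pos hε)
  obtain ⟨l2, c2, h21, h22, h23⟩ := exists_affine_small hK hKc (hK.inter_right hcl2)
    (hKc.inter hcv2) inter_subset_left he
    (by rintro ⟨_, h⟩; simp only [mem_ofPred_eq] at h; linarith) (half_pos hε)
  refine ⟨l1 + l2, c1 + c2, ?_, ?_, ?_⟩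
  · intro x hx
    have := h11 x hx
    have := h21 x hx
    simp only [add_apply]
    linarith
  · intro x hx hx'
    have h1 := h11 x hx
    have h2 := h21 x hx
    simp only [add_apply]
    rcases le_abs.1 hx' with h | h
    · have := h12 x ⟨hx, by simp only [mem_ofPred_eq]; linarith⟩
      linarith
    · have := h22 x ⟨hx, by simp only [mem_ofPred_eq]; linarith⟩
      linarith
  · simp only [add_apply]
    linarith

open Classical in
/-- separating functional for two sets -/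
noncomputable def sepF (N N' : Set E) : StrongDual ℝ E :=
  if h : ∃ f : StrongDual ℝ E, ∃ p : ℝ, (∀ x ∈ N, f x < p) ∧ (∀ x ∈ N', p < f x)
  then h.choose else 0

open Classical in
/-- closing-off step -/
noncomputable def stepF (K : Set E) (f : StrongDual ℝ E) (q η ε : ℚ) (N : Set E) :
    StrongDual ℝ E :=
  if h : ∃ l : StrongDual ℝ E, ∃ c : ℝ, (∀ x ∈ K, 0 ≤ l x + c) ∧
      (∀ x ∈ K, (η : ℝ) ≤ |f x - q| → 1 ≤ l x + c) ∧ (∀ x ∈ N, l x + c < ε)
  then h.choose else 0

/-- the closed-off family -/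
noncomputable def H0 (K : Set E) (𝒩 : Set (Set E)) :
    (𝒩 × 𝒩) × List (ℚ × ℚ × ℚ × 𝒩) → StrongDual ℝ E := fun i =>
  i.2.foldr (fun d f => stepF K f d.1 d.2.1 d.2.2.1 d.2.2.2) (sepF i.1.1 i.1.2)

theorem fiber_trivial [T2Space E] {K : Set E} (hK : IsCompact K) (hKc : Convex ℝ K)
    (𝒩 : Set (Set E))
    (hN : ∀ x ∈ K.extremePoints ℝ, ∀ U : Set E, IsOpen U → x ∈ U → ∃ N ∈ 𝒩, x ∈ N ∧ N ⊆ U)
    {e : E} (he : e ∈ K.extremePoints ℝ) :
    ∀ x ∈ K, (∀ i, H0 K 𝒩 i x = H0 K 𝒩 i e) → x = e := by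
  set F : Set E := {x ∈ K | ∀ i, H0 K 𝒩 i x = H0 K 𝒩 i e} with hF
  have hFcl : IsClosed {x : E | ∀ i, H0 K 𝒩 i x = H0 K 𝒩 i e} := by
    have : {x : E | ∀ i, H0 K 𝒩 i x = H0 K 𝒩 i e} =
      ⋂ i, {x : E | H0 K 𝒩 i x = H0 K 𝒩 i e} := by ext x; simp
    rw [this]
    exact isClosed_iInter fun i => isClosed_eq (H0 K 𝒩 i).continuous continuous_const
  have hFcomp : IsCompact F := hK.inter_right hFcl
  have hFconv : Convex ℝ F := by
    intro x hx y hy a b ha hb hab
    refine ⟨hKc hx.1 hy.1 ha hb hab, fun i => ?_⟩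
    rw [map_add, map_smul, map_smul, hx.2 i, hy.2 i, ← add_smul, hab, one_smul]
  have heF : e ∈ F := ⟨he.1, fun i => rfl⟩
  have hFext : IsExtreme ℝ K F := by
    refine ⟨fun x hx => hx.1, ?_⟩
    intro y hy z hz x hx hseg
    refine ⟨hy, fun i => ?_⟩
    by_contra hne
    rw [openSegment_eq_image] at hseg
    obtain ⟨θ, ⟨hθ0, hθ1⟩, hxe⟩ := hseg
    -- rational q, η
    set f := H0 K 𝒩 i with hf
    have hpos : 0 < |f y - f e| := abs_pos.2 (sub_ne_zero.2 hne)
    obtain ⟨η, hη0, hη1⟩ := exists_rat_btwn (show (0:ℝ) < |f y - f e| / 2 by positivity)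
    obtain ⟨q, hq0, hq1⟩ := exists_rat_btwn (show f e - η < f e + η by linarith)
    have hqe : |f e - q| < η := by rw [abs_lt]; constructor <;> linarith
    have hqy : (η : ℝ) ≤ |f y - q| := by
      have h1 : |f y - f e| ≤ |f y - q| + |f e - q| := by
        have := abs_sub_le (f y) q (f e)
        rwa [abs_sub_comm (q : ℝ) (f e)] at this
      linarith
    obtain ⟨ε, hε0, hε1⟩ := exists_rat_btwn (show (0:ℝ) < 1 - θ by linarith)
    obtain ⟨l, c, hl1, hl2, hl3⟩ := exists_affine_small' hK hKc he f q η hqe hε0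
    obtain ⟨N, hNN, heN, hNU⟩ := hN e he {x | l x + c < ε}
      (isOpen_lt (by fun_prop) continuous_const) hl3
    have hex : ∃ l : StrongDual ℝ E, ∃ c : ℝ, (∀ x ∈ K, 0 ≤ l x + c) ∧
      (∀ x ∈ K, (η : ℝ) ≤ |f x - q| → 1 ≤ l x + c) ∧ (∀ x ∈ N, l x + c < ε) :=
      ⟨l, c, hl1, hl2, fun x hx => hNU hx⟩
    set j : (𝒩 × 𝒩) × List (ℚ × ℚ × ℚ × 𝒩) := (i.1, (q, η, ε, ⟨N, hNN⟩) :: i.2) with hj
    have hHj : H0 K 𝒩 j = stepF K f q η ε N := by
      simp only [H0, hj, List.foldr_cons, hf]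
    have hstep : stepF K f q η ε N = hex.choose := by
      rw [stepF, dif_pos hex]
    obtain ⟨c', h1, h2, h3⟩ := hex.choose_spec
    rw [← hstep, ← hHj] at h1 h2 h3
    have hxj := hx.2 j
    have hye := h2 y hy hqy
    have hze := h1 z hz
    have hee := h3 e heN
    rw [← hxj, ← hxe, map_add, map_smul, map_smul, smul_eq_mul, smul_eq_mul] at hee
    have h5 : (1 - θ) * 1 ≤ (1 - θ) * (H0 K 𝒩 j y + c') :=
      mul_le_mul_of_nonneg_left hye (by linarith)
    have h6 : 0 ≤ θ * (H0 K 𝒩 j z + c') := mul_nonneg hθ0.le hze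
    linarith
  have hext : F.extremePoints ℝ = {e} := by
    apply Subset.antisymm
    · intro e' he'
      have he'K := hFext.extremePoints_subset_extremePoints he'
      by_contra hne
      have hne' : e' ≠ e := hne
      obtain ⟨f, hf⟩ := geometric_hahn_banach_point_point hne'
      obtain ⟨p, hp1, hp2⟩ := exists_between hf
      obtain ⟨N, hNN, heN, hNU⟩ := hN e' he'K {x | f x < p}
        (isOpen_lt f.continuous continuous_const) hp1
      obtain ⟨N', hNN', heN', hNU'⟩ := hN e he {x | p < f x}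
        (isOpen_lt continuous_const f.continuous) hp2
      have hex : ∃ f : StrongDual ℝ E, ∃ p : ℝ, (∀ x ∈ N, f x < p) ∧ (∀ x ∈ N', p < f x) :=
        ⟨f, p, fun x hx => hNU hx, fun x hx => hNU' hx⟩
      set j : (𝒩 × 𝒩) × List (ℚ × ℚ × ℚ × 𝒩) := ((⟨N, hNN⟩, ⟨N', hNN'⟩), []) with hj
      have hHj : H0 K 𝒩 j = sepF N N' := by
        simp only [H0, hj, List.foldr_nil]
      have hstep : sepF N N' = hex.choose := by
        rw [sepF, dif_pos hex]
      obtain ⟨p', h1, h2⟩ := hex.choose_spec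
      rw [← hstep, ← hHj] at h1 h2
      have h3 := h1 e' heN
      have h4 := h2 e heN'
      have h5 := (extremePoints_subset he').2 j
      linarith
    · rintro _ rfl
      exact inter_extremePoints_subset_extremePoints_of_subset hFext.subset ⟨heF, he⟩
  have hFe : F = {e} := by
    have := closure_convexHull_extremePoints hFcomp hFconv
    rw [hext, convexHull_singleton, closure_singleton] at this
    exact this.symm
  intro x hx hxi
  have : x ∈ F := ⟨hx, hxi⟩
  rw [hFe] at this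
  exact this

end


section
universe u
variable {E : Type u} [AddCommGroup E] [Module ℝ E] [TopologicalSpace E]
  [IsTopologicalAddGroup E] [ContinuousSMul ℝ E] [LocallyConvexSpace ℝ E] [T2Space E]

/-- Bauer: a continuous affine function on a compact convex set attains its maximum at an
extreme point. -/
theorem max_affine {K : Set E} (hK : IsCompact K) (hne : K.Nonempty) (A : E → ℝ)
    (hA : ContinuousOn A K)
    (haff : ∀ x ∈ K, ∀ y ∈ K, ∀ a b : ℝ, 0 < a → 0 < b → a + b = 1 →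
      A (a • x + b • y) = a * A x + b * A y) :
    ∃ e ∈ K.extremePoints ℝ, ∀ x ∈ K, A x ≤ A e := by
  obtain ⟨z, hzK, hz⟩ := hK.exists_isMaxOn hne hA
  set F : Set E := K ∩ A ⁻¹' {A z} with hF
  have hFcomp : IsCompact F :=
    hK.of_isClosed_subset (hA.preimage_isClosed_of_isClosed hK.isClosed isClosed_singleton)
      inter_subset_left
  have hFext : IsExtreme ℝ K F := by
    refine ⟨inter_subset_left, ?_⟩
    rintro x hx y hy w ⟨hwK, hw⟩ ⟨a, b, ha, hb, hab, rfl⟩
    refine ⟨hx, ?_⟩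
    have hw' : A (a • x + b • y) = A z := hw
    rw [haff x hx y hy a b ha hb hab] at hw'
    have h1 : A x ≤ A z := hz hx
    have h2 : A y ≤ A z := hz hy
    have hb' : b = 1 - a := by linarith
    subst hb'
    show A x = A z
    nlinarith
  obtain ⟨e, he⟩ := hFcomp.extremePoints_nonempty ⟨z, hzK, rfl⟩
  refine ⟨e, hFext.extremePoints_subset_extremePoints he, fun x hx => ?_⟩
  have h1 : A e = A z := he.1.2
  rw [h1]
  exact hz hx

open Classical in
/-- approximating affine functions -/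
noncomputable def approxF {ι : Type*} (K : Set E) (f : ι → E → ℝ)
    (i : List (List (ι × ℚ × ℚ) × ℚ) × ℚ × ℕ) : StrongDual ℝ E × ℝ :=
  if h : ∃ g : StrongDual ℝ E × ℝ, (∀ x ∈ K, |g.1 x + g.2| ≤ i.2.2) ∧
      ∀ d ∈ i.1, ∀ x ∈ K, x ∈ Cond f d.1 → |g.1 x + g.2 - d.2| ≤ i.2.1
  then h.choose else 0

theorem approx_separates {ι : Type*} {K : Set E} (hK : IsCompact K)
    (f : ι → E → ℝ) (hf : ∀ i, Continuous (f i))
    (hfib : ∀ e ∈ K.extremePoints ℝ, ∀ x ∈ K, (∀ i, f i x = f i e) → x = e)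
    (hL : IsLindelof (K.extremePoints ℝ)) (x y : E) (hx : x ∈ K) (hy : y ∈ K)
    (hxy : ∀ i, (approxF K f i).1 x + (approxF K f i).2 =
      (approxF K f i).1 y + (approxF K f i).2) : x = y := by
  by_contra hne
  have hKne : K.Nonempty := ⟨x, hx⟩
  obtain ⟨h, hh⟩ := geometric_hahn_banach_point_point hne
  obtain ⟨δ, hδ0, hδ1⟩ := exists_rat_btwn (show (0 : ℝ) < (h y - h x) / 8 by linarith)
  obtain ⟨z, hzK, hz⟩ := hK.exists_isMaxOn hKne
    (f := fun x => |h x|) (h.continuous.abs.continuousOn)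
  obtain ⟨R, hR⟩ := exists_nat_ge |h z|
  have hRb : ∀ w ∈ K, |h w| ≤ R := fun w hw => le_trans (hz hw) hR
  have hδ2 : (0 : ℝ) < δ / 2 := by linarith
  -- local data
  have hloc : ∀ e : E, ∃ s : List (ι × ℚ × ℚ), ∃ r : ℚ, e ∈ K.extremePoints ℝ →
      (e ∈ Cond f s ∧ ∀ w ∈ K, w ∈ Cond f s → |h w - r| ≤ δ) := by
    intro e
    by_cases he : e ∈ K.extremePoints ℝ
    · obtain ⟨s, hs1, hs2⟩ := local_base hK f hf e (hfib e he) {w | |h w - h e| < δ / 2}
        (isOpen_lt (by fun_prop) continuous_const) (by simpa using hδ2)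
      obtain ⟨r, hr1, hr2⟩ := exists_rat_btwn (show h e < h e + δ / 2 by linarith)
      refine ⟨s, r, fun _ => ⟨hs1, fun w hw hws => ?_⟩⟩
      have h1 : |h w - h e| < δ / 2 := hs2 w hw hws
      rw [abs_lt] at h1
      rw [abs_le]
      constructor <;> linarith
    · exact ⟨[], 0, fun h => absurd h he⟩
  choose s r hsr using hloc
  obtain ⟨t, htc, hts, htcov⟩ := hL.elim_nhds_subcover (fun e => Cond f (s e))
    (fun e he => (isOpen_cond f hf _).mem_nhds (hsr e he).1)
  obtain ⟨e1, he1⟩ := hK.extremePoints_nonempty hKne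
  have htne : t.Nonempty := by
    obtain ⟨S, ⟨w, rfl⟩, hw⟩ := htcov he1
    simp only [mem_iUnion] at hw
    exact ⟨w, hw.1⟩
  obtain ⟨en, hen⟩ := htc.exists_eq_range htne
  have henext : ∀ n, en n ∈ K.extremePoints ℝ := fun n => hts _ (hen ▸ mem_range_self n)
  have hcov : ∀ e ∈ K.extremePoints ℝ, ∃ n, e ∈ Cond f (s (en n)) := by
    intro e he
    have := htcov he
    simp only [mem_iUnion] at this
    obtain ⟨w, hwt, hw⟩ := this
    rw [hen] at hwt
    obtain ⟨n, rfl⟩ := hwt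
    exact ⟨n, hw⟩
  set idx : ℕ → List (List (ι × ℚ × ℚ) × ℚ) × ℚ × ℕ := fun n =>
    ((List.range (n + 1)).map (fun k => (s (en k), r (en k))), δ, R) with hidx
  have hgn : ∀ n, (∀ x ∈ K, |(approxF K f (idx n)).1 x + (approxF K f (idx n)).2| ≤ R) ∧
      ∀ k ≤ n, ∀ x ∈ K, x ∈ Cond f (s (en k)) →
        |(approxF K f (idx n)).1 x + (approxF K f (idx n)).2 - r (en k)| ≤ δ := by
    intro n
    have hex : ∃ g : StrongDual ℝ E × ℝ, (∀ x ∈ K, |g.1 x + g.2| ≤ (idx n).2.2) ∧
      ∀ d ∈ (idx n).1, ∀ x ∈ K, x ∈ Cond f d.1 → |g.1 x + g.2 - d.2| ≤ (idx n).2.1 := by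
      refine ⟨(h, 0), fun w hw => by simpa [hidx] using hRb w hw, ?_⟩
      intro d hd w hw hwd
      simp only [hidx, List.mem_map, List.mem_range] at hd
      obtain ⟨k, _, rfl⟩ := hd
      simp only [add_zero]
      exact (hsr _ (henext k)).2 w hw hwd
    have heq : approxF K f (idx n) = hex.choose := by
      rw [approxF, dif_pos hex]
    have hsp := hex.choose_spec
    rw [← heq] at hsp
    refine ⟨fun w hw => hsp.1 w hw, fun k hk w hw hwc => ?_⟩
    exact hsp.2 (s (en k), r (en k)) (by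
      simp only [hidx, List.mem_map, List.mem_range]
      exact ⟨k, by omega, rfl⟩) w hw hwc
  set gn : ℕ → E → ℝ := fun n x => (approxF K f (idx n)).1 x + (approxF K f (idx n)).2 with hgnd
  have hgb : ∀ n, ∀ w ∈ K, |gn n w| ≤ R := fun n => (hgn n).1
  have hgc : ∀ e ∈ K.extremePoints ℝ, ∃ N, ∀ n ≥ N, |gn n e - h e| ≤ 2 * δ := by
    intro e he
    obtain ⟨k, hk⟩ := hcov e he
    refine ⟨k, fun n hn => ?_⟩
    have h1 := (hgn n).2 k hn e he.1 hk
    have h2 := (hsr _ (henext k)).2 e he.1 hk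
    have h3 := abs_sub_le (gn n e) (r (en k)) (h e)
    rw [abs_sub_comm (r (en k) : ℝ) (h e)] at h3
    have h1' : |gn n e - r (en k)| ≤ δ := h1
    linarith
  -- apply the inequality of Simons on K × Bool
  haveI : Nonempty (K × Bool) := ⟨(⟨x, hx⟩, true)⟩
  set F : ℕ → K × Bool → ℝ := fun n p => if p.2 then gn n p.1 - h p.1 else h p.1 - gn n p.1
    with hFdef
  set P : Set (K × Bool → ℝ) := {G | ∃ (l : StrongDual ℝ E) (c : ℝ), ∀ w : K,
    G (w, true) = l w + c ∧ G (w, false) = -(l w + c)} with hP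
  have hPconv : Convex ℝ P := by
    rintro G ⟨l, c, hG⟩ G' ⟨l', c', hG'⟩ a b ha hb hab
    refine ⟨a • l + b • l', a * c + b * c', fun w => ?_⟩
    simp only [Pi.add_apply, Pi.smul_apply, smul_eq_mul, (hG w).1, (hG w).2, (hG' w).1,
      (hG' w).2, add_apply, smul_apply]
    constructor <;> ring
  have hFP : convexHull ℝ (range F) ⊆ P := by
    apply convexHull_min _ hPconv
    rintro _ ⟨n, rfl⟩
    refine ⟨(approxF K f (idx n)).1 - h, (approxF K f (idx n)).2, fun w => ?_⟩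
    simp only [hFdef, hgnd, sub_apply, if_true, Bool.false_eq_true, if_false]
    constructor <;> ring
  have hFM : ∀ n p, |F n p| ≤ 2 * R := by
    rintro n ⟨w, b⟩
    have h1 := abs_le.1 (hgb n w w.2)
    have h2 := abs_le.1 (hRb w w.2)
    cases b <;> simp only [hFdef, if_true, Bool.false_eq_true, if_false] <;> rw [abs_le] <;>
      constructor <;> linarith
  obtain ⟨G, hG, hGle⟩ := Simons.simons (X := K × Bool)
    {p | (p.1 : E) ∈ K.extremePoints ℝ} F (2 * R) (2 * δ) hFM (by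
      intro lam hl0 hl1 g hg
      choose l c hlc using fun n => hFP (hg n)
      have hgM : ∀ n p, |g n p| ≤ 2 * R := fun n p => Simons.bdd_hull hFM univ
        (by rw [image_univ]; exact hg n) p
      have hlb : ∀ n, ∀ w ∈ K, |l n w + c n| ≤ 2 * R := by
        intro n w hw
        have := hgM n (⟨w, hw⟩, true)
        rwa [(hlc n ⟨w, hw⟩).1] at this
      have hsum : Summable (fun n : ℕ => lam ^ n * (2 * (R : ℝ))) :=
        (summable_geometric_of_lt_one hl0.le hl1).mul_right _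
      have hnb : ∀ n w, w ∈ K → ‖lam ^ n * (l n w + c n)‖ ≤ lam ^ n * (2 * R) := by
        intro n w hw
        rw [Real.norm_eq_abs, abs_mul, abs_of_nonneg (by positivity : (0:ℝ) ≤ lam ^ n)]
        exact mul_le_mul_of_nonneg_left (hlb n w hw) (by positivity)
      have hsw : ∀ w ∈ K, Summable (fun n => lam ^ n * (l n w + c n)) := fun w hw =>
        Summable.of_norm_bounded hsum (fun n => hnb n w hw)
      set A : E → ℝ := fun w => ∑' n, lam ^ n * (l n w + c n) with hA
      have hAc : ContinuousOn A K := by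
        apply continuousOn_tsum (u := fun n => lam ^ n * (2 * (R : ℝ))) _ hsum hnb
        intro n
        fun_prop
      have haff : ∀ x ∈ K, ∀ y ∈ K, ∀ a b : ℝ, 0 < a → 0 < b → a + b = 1 →
          A (a • x + b • y) = a * A x + b * A y := by
        intro u hu v hv a b ha hb hab
        simp only [hA]
        rw [← tsum_mul_left, ← tsum_mul_left, ← ((hsw u hu).mul_left a).tsum_add
          ((hsw v hv).mul_left b)]
        apply tsum_congr
        intro n
        rw [map_add, map_smul, map_smul, smul_eq_mul, smul_eq_mul]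
        have : b = 1 - a := by linarith
        subst this
        ring
      obtain ⟨e1, he1, hmax1⟩ := max_affine hK hKne A hAc haff
      obtain ⟨e2, he2, hmax2⟩ := max_affine hK hKne (fun w => -A w) hAc.neg (by
        intro u hu v hv a b ha hb hab
        rw [haff u hu v hv a b ha hb hab]; ring)
      have hGt : ∀ w : K, ∑' n, lam ^ n * g n (w, true) = A w := by
        intro w
        apply tsum_congr
        intro n
        rw [(hlc n w).1]
      have hGf : ∀ w : K, ∑' n, lam ^ n * g n (w, false) = -A w := by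
        intro w
        rw [hA]
        simp only
        rw [← tsum_neg]
        apply tsum_congr
        intro n
        rw [(hlc n w).2]
        ring
      rcases le_total (-A e2) (A e1) with hle | hle
      · refine ⟨(⟨e1, he1.1⟩, true), he1, ?_⟩
        rintro ⟨w, b⟩
        rw [hGt ⟨e1, he1.1⟩]
        cases b
        · rw [hGf]
          exact le_trans (hmax2 w w.2) hle
        · rw [hGt]
          exact hmax1 w w.2
      · refine ⟨(⟨e2, he2.1⟩, false), he2, ?_⟩
        rintro ⟨w, b⟩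
        rw [hGf ⟨e2, he2.1⟩]
        cases b
        · rw [hGf]
          exact hmax2 w w.2
        · rw [hGt]
          exact le_trans (hmax1 w w.2) hle) (by
      rintro ⟨w, b⟩ hwb
      obtain ⟨N, hN⟩ := hgc w hwb
      refine ⟨N, fun n hn => ?_⟩
      have := abs_le.1 (hN n hn)
      cases b <;> simp only [hFdef, if_true, Bool.false_eq_true, if_false] <;> linarith) δ hδ0
  -- invariance
  set Q : Set (K × Bool → ℝ) := {G | G (⟨x, hx⟩, true) + h x = G (⟨y, hy⟩, true) + h y ∧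
    G (⟨x, hx⟩, false) = - G (⟨x, hx⟩, true) ∧ G (⟨y, hy⟩, false) = - G (⟨y, hy⟩, true)} with hQ
  have hQconv : Convex ℝ Q := by
    rintro G ⟨h1, h2, h3⟩ G' ⟨h1', h2', h3'⟩ a b ha hb hab
    have : b = 1 - a := by linarith
    subst this
    refine ⟨?_, ?_, ?_⟩
    · simp only [Pi.add_apply, Pi.smul_apply, smul_eq_mul]
      have e1 : G (⟨x, hx⟩, true) = G (⟨y, hy⟩, true) + h y - h x := by linarith
      have e2 : G' (⟨x, hx⟩, true) = G' (⟨y, hy⟩, true) + h y - h x := by linarith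
      rw [e1, e2]; ring
    · simp only [Pi.add_apply, Pi.smul_apply, smul_eq_mul]
      rw [h2, h2']; ring
    · simp only [Pi.add_apply, Pi.smul_apply, smul_eq_mul]
      rw [h3, h3']; ring
  have hFQ : convexHull ℝ (range F) ⊆ Q := by
    apply convexHull_min _ hQconv
    rintro _ ⟨n, rfl⟩
    have hn := hxy (idx n)
    refine ⟨?_, ?_, ?_⟩
    · simp only [hFdef, hgnd, if_true]
      linarith
    · simp only [hFdef, if_true, Bool.false_eq_true, if_false]
      ring
    · simp only [hFdef, if_true, Bool.false_eq_true, if_false]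
      ring
  obtain ⟨h1, h2, h3⟩ := hFQ hG
  have k1 := hGle (⟨x, hx⟩, true)
  have k2 := hGle (⟨x, hx⟩, false)
  have k3 := hGle (⟨y, hy⟩, true)
  have k4 := hGle (⟨y, hy⟩, false)
  rw [h2] at k2
  rw [h3] at k4
  linarith

/-- `𝒩` is a network of `S` -/
def IsNetwork (S : Set E) (𝒩 : Set (Set E)) : Prop :=
  (∀ N ∈ 𝒩, N ⊆ S) ∧ ∀ x ∈ S, ∀ U : Set E, IsOpen U → x ∈ U → ∃ N ∈ 𝒩, x ∈ N ∧ N ⊆ U

theorem network_bound {K : Set E} (hK : IsCompact K) (hKc : Convex ℝ K)
    (hL : IsLindelof (K.extremePoints ℝ)) (κ : Cardinal.{u}) (hκ : ℵ₀ ≤ κ) (𝒩 : Set (Set E))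
    (hN : IsNetwork (K.extremePoints ℝ) 𝒩) (hNκ : #𝒩 ≤ κ) :
    ∃ 𝓜 : Set (Set E), IsNetwork K 𝓜 ∧ #𝓜 ≤ κ := by
  set f : (𝒩 × 𝒩) × List (ℚ × ℚ × ℚ × 𝒩) → E → ℝ := fun i x => H0 K 𝒩 i x with hf
  have hfc : ∀ i, Continuous (f i) := fun i => (H0 K 𝒩 i).continuous
  have hfib : ∀ e ∈ K.extremePoints ℝ, ∀ x ∈ K, (∀ i, f i x = f i e) → x = e := fun e he =>
    fiber_trivial hK hKc 𝒩 hN.2 he
  set g : List (List (((𝒩 × 𝒩) × List (ℚ × ℚ × ℚ × 𝒩)) × ℚ × ℚ) × ℚ) × ℚ × ℕ → E → ℝ :=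
    fun i x => (approxF K f i).1 x + (approxF K f i).2 with hg
  have hgc : ∀ i, Continuous (g i) := fun i => by simp only [hg]; fun_prop
  refine ⟨range (fun s => K ∩ Cond g s), ⟨?_, ?_⟩, ?_⟩
  · rintro _ ⟨s, rfl⟩
    exact inter_subset_left
  · intro x hx U hU hxU
    obtain ⟨s, hs1, hs2⟩ := local_base hK g hgc x
      (fun y hy hyx => approx_separates hK f hfc hfib hL y x hy hx hyx) U hU hxU
    exact ⟨_, ⟨s, rfl⟩, ⟨hx, hs1⟩, fun y hy => hs2 y hy.1 hy.2⟩
  · have hlist : ∀ α : Type u, #α ≤ κ → #(List α) ≤ κ := fun α hα =>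
      (mk_list_le_max α).trans (max_le hκ hα)
    have hprod : ∀ α β : Type u, #α ≤ κ → #β ≤ κ → #(α × β) ≤ κ := fun α β hα hβ => by
      rw [mk_prod, Cardinal.lift_id, Cardinal.lift_id]
      exact (mul_le_mul' hα hβ).trans (mul_eq_self hκ).le
    have hprodc : ∀ (α : Type u) (β : Type) [Countable β], #α ≤ κ → #(α × β) ≤ κ :=
      fun α β _ hα => by
      rw [mk_prod, Cardinal.lift_uzero]
      refine (mul_le_mul' hα ?_).trans (mul_eq_self hκ).le
      exact (lift_le_aleph0.2 (mk_le_aleph0 (α := β))).trans hκ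
    have hprodc' : ∀ (α : Type u) (β : Type) [Countable β], #α ≤ κ → #(β × α) ≤ κ :=
      fun α β _ hα => by
      rw [Cardinal.mk_congr (Equiv.prodComm β α)]
      exact hprodc α β hα
    refine (mk_range_le).trans ?_
    have h1 : #((𝒩 × 𝒩) × List (ℚ × ℚ × ℚ × 𝒩)) ≤ κ :=
      hprod _ _ (hprod _ _ hNκ hNκ) (hlist _ (hprodc' _ _ (hprodc' _ _ (hprodc' _ _ hNκ))))
    have h2 : #(List (((𝒩 × 𝒩) × List (ℚ × ℚ × ℚ × 𝒩)) × ℚ × ℚ)) ≤ κ :=
      hlist _ (hprodc _ _ h1)
    have h3 : #(List (List (((𝒩 × 𝒩) × List (ℚ × ℚ × ℚ × 𝒩)) × ℚ × ℚ) × ℚ)) ≤ κ :=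
      hlist _ (hprodc _ _ h2)
    exact hlist _ (hprodc _ _ (hprodc _ _ h3))

/-- the network weight of a subset of a topological space: the least cardinality of a network of
the subspace, but at least aleph-null -/
noncomputable def netWeight (S : Set E) : Cardinal.{u} :=
  ℵ₀ ⊔ sInf {κ : Cardinal | ∃ 𝒩 : Set (Set E),
    (∀ N ∈ 𝒩, N ⊆ S) ∧
    (∀ x ∈ S, ∀ U : Set E, IsOpen U → x ∈ U → ∃ N ∈ 𝒩, x ∈ N ∧ N ⊆ U) ∧
    Cardinal.mk ↥𝒩 = κ}

omit [AddCommGroup E] [Module ℝ E] [IsTopologicalAddGroup E] [ContinuousSMul ℝ E]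
  [LocallyConvexSpace ℝ E] [T2Space E] in
lemma netWeight_attained (S : Set E) : ∃ 𝒩 : Set (Set E), IsNetwork S 𝒩 ∧ #𝒩 ≤ netWeight S := by
  have hne : {κ : Cardinal | ∃ 𝒩 : Set (Set E),
    (∀ N ∈ 𝒩, N ⊆ S) ∧
    (∀ x ∈ S, ∀ U : Set E, IsOpen U → x ∈ U → ∃ N ∈ 𝒩, x ∈ N ∧ N ⊆ U) ∧
    Cardinal.mk ↥𝒩 = κ}.Nonempty := by
    refine ⟨_, 𝒫 S, fun N hN => hN, fun x hx U _ hxU => ⟨{x}, ?_, rfl, ?_⟩, rfl⟩
    · simpa using hx
    · simpa using hxU
  obtain ⟨𝒩, h1, h2, h3⟩ := csInf_mem hne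
  exact ⟨𝒩, ⟨h1, h2⟩, by rw [h3]; exact le_sup_right⟩

omit [AddCommGroup E] [Module ℝ E] [IsTopologicalAddGroup E] [ContinuousSMul ℝ E]
  [LocallyConvexSpace ℝ E] [T2Space E] in
lemma netWeight_le {S : Set E} {κ : Cardinal.{u}} (hκ : ℵ₀ ≤ κ) {𝒩 : Set (Set E)}
    (h : IsNetwork S 𝒩) (hc : #𝒩 ≤ κ) : netWeight S ≤ κ := by
  have hm : #𝒩 ∈ {κ : Cardinal.{u} | ∃ 𝒩 : Set (Set E),
    (∀ N ∈ 𝒩, N ⊆ S) ∧
    (∀ x ∈ S, ∀ U : Set E, IsOpen U → x ∈ U → ∃ N ∈ 𝒩, x ∈ N ∧ N ⊆ U) ∧
    Cardinal.mk ↥𝒩 = κ} := ⟨𝒩, h.1, h.2, rfl⟩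
  exact sup_le hκ ((csInf_le' hm).trans hc)

omit [AddCommGroup E] [Module ℝ E] [IsTopologicalAddGroup E] [ContinuousSMul ℝ E]
  [LocallyConvexSpace ℝ E] [T2Space E] in
lemma netWeight_mono {S T : Set E} (h : T ⊆ S) : netWeight T ≤ netWeight S := by
  obtain ⟨𝒩, hN, hc⟩ := netWeight_attained S
  have hnet : IsNetwork T ((fun N => N ∩ T) '' 𝒩) := by
    refine ⟨?_, ?_⟩
    · rintro _ ⟨N, _, rfl⟩
      exact inter_subset_right
    · intro x hx U hU hxU
      obtain ⟨N, hNN, hxN, hNU⟩ := hN.2 x (h hx) U hU hxU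
      exact ⟨_, ⟨N, hNN, rfl⟩, ⟨hxN, hx⟩, inter_subset_left.trans hNU⟩
  exact netWeight_le le_sup_left hnet (mk_image_le.trans hc)

theorem result' {K : Set E} (hK : IsCompact K) (hKc : Convex ℝ K)
    (hL : IsLindelof (K.extremePoints ℝ)) : netWeight K = netWeight (K.extremePoints ℝ) := by
  apply le_antisymm _ (netWeight_mono extremePoints_subset)
  obtain ⟨𝒩, hN, hc⟩ := netWeight_attained (K.extremePoints ℝ)
  obtain ⟨𝓜, hM, hMc⟩ := network_bound hK hKc hL _ le_sup_left 𝒩 hN hc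
  exact netWeight_le le_sup_left hM hMc

end

universe u

open Cardinal in
/-- If the set of extreme points of a compact convex set `K` is a Lindelof space, then `K` and its
set of extreme points have the same network weight. -/
theorem result (E : Type u) [AddCommGroup E] [Module ℝ E] [TopologicalSpace E]
    [IsTopologicalAddGroup E] [ContinuousSMul ℝ E] [LocallyConvexSpace ℝ E] [T2Space E]
    (K : Set E) (hK : IsCompact K) (hKc : Convex ℝ K)
    (hL : IsLindelof (Set.extremePoints ℝ K)) :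
    (ℵ₀ ⊔ sInf {κ : Cardinal.{u} | ∃ 𝒩 : Set (Set E),
        (∀ N ∈ 𝒩, N ⊆ K) ∧
        (∀ x ∈ K, ∀ U : Set E, IsOpen U → x ∈ U → ∃ N ∈ 𝒩, x ∈ N ∧ N ⊆ U) ∧
        Cardinal.mk ↥𝒩 = κ})
      =
    (ℵ₀ ⊔ sInf {κ : Cardinal.{u} | ∃ 𝒩 : Set (Set E),
        (∀ N ∈ 𝒩, N ⊆ Set.extremePoints ℝ K) ∧
        (∀ x ∈ Set.extremePoints ℝ K, ∀ U : Set E, IsOpen U → x ∈ U →
          ∃ N ∈ 𝒩, x ∈ N ∧ N ⊆ U) ∧
        Cardinal.mk ↥𝒩 = κ}) :=
  result' hK hKc hL

end Pool.Agent.Results.MP_176125_gt.Lindelof
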